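import Pool.Agent.TH323.Haar4

/-!
# An equivalent norm on `L_p[0,1]`, `1 < p < ∞`, for which the Haar system is 1-greedy
-/

set_option autoImplicit false

open MeasureTheory Filter Topology

namespace Pool.Agent.Results.MP_3d1733_an.HaarOneGreedy

/-- The Haar system normalised in `L_p[0,1]`, in the usual order: `haar p 0 = 1`, and for
`n = 2 ^ k + j` with `0 ≤ j < 2 ^ k` the function `haar p n` is `2 ^ (k / p)` on the left half of
`I = [j / 2 ^ k, (j + 1) / 2 ^ k)`, `- 2 ^ (k / p)` on the right half of `I`, and `0` off `I`. -/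
noncomputable def haar (p : ℝ) (n : ℕ) (x : ℝ) : ℝ :=
  if n = 0 then 1 else
    let k : ℕ := Nat.log 2 n
    let j : ℝ := ((n - 2 ^ k : ℕ) : ℝ)
    ((2 : ℝ) ^ k) ^ (1 / p) *
      ((Set.Ico (j / 2 ^ k) ((2 * j + 1) / 2 ^ (k + 1))).indicator 1 x
        - (Set.Ico ((2 * j + 1) / 2 ^ (k + 1)) ((j + 1) / 2 ^ k)).indicator 1 x)

/-- `a` is the coefficient sequence of the expansion of `f` along the system `h`. -/
def IsExpansion {𝕜 X : Type} [RCLike 𝕜] [NormedAddCommGroup X] [NormedSpace 𝕜 X]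
    (h : ℕ → X) (f : X) (a : ℕ → 𝕜) : Prop :=
  Tendsto (fun N => ∑ n ∈ Finset.range N, a n • h n) atTop (𝓝 f)

/-- `A` is a greedy set for the coefficient sequence `a`. -/
def IsGreedySet {𝕜 : Type} [RCLike 𝕜] (a : ℕ → 𝕜) (A : Finset ℕ) : Prop :=
  ∀ n ∈ A, ∀ m, m ∉ A → ‖a m‖ ≤ ‖a n‖

/-- The system `h` is `1`-greedy for the norm `N`: for every `f` with expansion `a`, the greedy sum
over a greedy set `A` is at least as good an approximation of `f` as any linear combination of at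
most `|A|` vectors of the system. -/
def IsOneGreedy {𝕜 X : Type} [RCLike 𝕜] [NormedAddCommGroup X] [NormedSpace 𝕜 X]
    (h : ℕ → X) (N : Seminorm 𝕜 X) : Prop :=
  ∀ (f : X) (a : ℕ → 𝕜), IsExpansion h f a → ∀ A : Finset ℕ, IsGreedySet a A →
    ∀ (B : Finset ℕ) (b : ℕ → 𝕜), B.card ≤ A.card →
      N (f - ∑ n ∈ A, a n • h n) ≤ N (f - ∑ n ∈ B, b n • h n)

open Pool.Agent.TH323 in
lemma haar_eq (p : ℝ) (n : ℕ) (x : ℝ) : haar p n x = Haar.hr p n x := by
  unfold haar Haar.hr Haar.sg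
  rcases eq_or_ne n 0 with rfl | hn
  · simp [Haar.nf]
  · rw [if_neg hn, if_neg hn]
    simp only
    have h1 : 2 ^ Nat.log 2 n ≤ n := Nat.pow_log_le_self 2 hn
    have e1 : ((2 : ℝ) ^ Nat.log 2 n) ^ (1 / p) = Haar.nf p n := by
      unfold Haar.nf
      rw [← Real.rpow_natCast, ← Real.rpow_mul (by norm_num)]
      congr 1
      ring
    have h2 : (2 : ℝ) ^ Nat.log 2 n ≠ 0 := by positivity
    have e2 : Haar.cell (2 * n) = Set.Ico (((n - 2 ^ Nat.log 2 n : ℕ) : ℝ) / 2 ^ Nat.log 2 n)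
        ((2 * ((n - 2 ^ Nat.log 2 n : ℕ) : ℝ) + 1) / 2 ^ (Nat.log 2 n + 1)) := by
      unfold Haar.cell
      rw [Haar.log_two_mul hn]
      have h3 : 2 * n - 2 ^ (Nat.log 2 n + 1) = 2 * (n - 2 ^ Nat.log 2 n) := by
        rw [pow_succ]; omega
      rw [h3]
      push_cast
      congr 1
      rw [pow_succ]
      field_simp
    have e3 : Haar.cell (2 * n + 1)
        = Set.Ico ((2 * ((n - 2 ^ Nat.log 2 n : ℕ) : ℝ) + 1) / 2 ^ (Nat.log 2 n + 1))
          ((((n - 2 ^ Nat.log 2 n : ℕ) : ℝ) + 1) / 2 ^ Nat.log 2 n) := by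
      unfold Haar.cell
      rw [Haar.log_two_mul_add hn]
      have h3 : 2 * n + 1 - 2 ^ (Nat.log 2 n + 1) = 2 * (n - 2 ^ Nat.log 2 n) + 1 := by
        rw [pow_succ]; omega
      rw [h3]
      push_cast
      congr 1
      rw [pow_succ]
      field_simp
      ring
    rw [e1, e2, e3]

open Pool.Agent.TH323 in
/-- The system satisfies the hypotheses of the abstract theorem. -/
lemma sys {𝕜 : Type} [RCLike 𝕜] {p q : ℝ} [Fact (1 ≤ ENNReal.ofReal p)] (hp : 1 < p)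
    (hpq : p.HolderConjugate q) :
    ∃ C, Greedy.Sys (𝕜 := 𝕜) (1 / p) C (Haar.hv 𝕜 p) (Haar.coef hp hpq) := by
  obtain ⟨c, hc⟩ := Burk.exists_good hp
  have hp0 : 0 < p := by linarith
  have hq0 : 0 < q := hpq.symm.pos
  set C := max (max (Haar.Dc p) (Haar.Dc q)) (4 * Burk.K c p ^ (1 / p)) with hC
  have h1 : Haar.Dc p ≤ C := (le_max_left _ _).trans (le_max_left _ _)
  have h2 : Haar.Dc q ≤ C := (le_max_right _ _).trans (le_max_left _ _)
  have h3 : 4 * Burk.K c p ^ (1 / p) ≤ C := le_max_right _ _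
  have hs : 1 - 1 / p = 1 / q := by
    have := hpq.inv_add_inv_eq_one
    rw [one_div, one_div]
    linarith
  refine ⟨C, ?_, ?_, ?_, ?_, ?_, ?_, ?_, ?_⟩
  · positivity
  · rw [div_lt_one hp0]; exact hp
  · exact (Haar.one_le_Dc hp0).trans h1
  · intro m n
    exact Haar.coefL_hv hp hpq m n
  · intro A x
    rw [hs]
    refine (Haar.coef_sum_le hp hpq A x).trans ?_
    exact mul_le_mul_of_nonneg_right (mul_le_mul_of_nonneg_right h2 (by positivity))
      (norm_nonneg _)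
  · intro A
    exact (Haar.sum_hv_le hp A).trans (mul_le_mul_of_nonneg_right h1 (by positivity))
  · intro F ε hε x
    exact (Haar.unc hp hpq hc F ε hε x).trans (mul_le_mul_of_nonneg_right h3 (norm_nonneg _))
  · exact Haar.hasSum_coef hp hpq hc

open Pool.Agent.TH323 in
lemma main (𝕜 : Type) [RCLike 𝕜] (p : ℝ) (hp : 1 < p) [Fact (1 ≤ ENNReal.ofReal p)]
    (μ : Measure ℝ) (hμ : μ = Haar.mu) :
    ∃ h : ℕ → Lp 𝕜 (ENNReal.ofReal p) μ,
      (∀ n, h n =ᵐ[μ] fun x => ((haar p n x : ℝ) : 𝕜)) ∧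
      (∀ f, ∃! a : ℕ → 𝕜, IsExpansion h f a) ∧
      ∃ N : Seminorm 𝕜 (Lp 𝕜 (ENNReal.ofReal p) μ),
        (∃ c C : ℝ, 0 < c ∧ 0 < C ∧ ∀ f, c * ‖f‖ ≤ N f ∧ N f ≤ C * ‖f‖) ∧
        IsOneGreedy h N := by
  subst hμ
  have hpq := Real.HolderConjugate.conjExponent hp
  obtain ⟨C, hsys⟩ := sys (𝕜 := 𝕜) hp hpq
  have huniq : ∀ (f : Lp 𝕜 (ENNReal.ofReal p) Haar.mu) (a : ℕ → 𝕜),
      IsExpansion (Haar.hv 𝕜 p) f a → ∀ m, a m = Haar.coef hp hpq m f := by
    intro f a ha m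
    have h1 : Tendsto (fun N => Haar.coef hp hpq m (∑ n ∈ Finset.range N, a n • Haar.hv 𝕜 p n))
        atTop (𝓝 (Haar.coef hp hpq m f)) := ((Haar.coef hp hpq m).continuous.tendsto f).comp ha
    have h2 : Tendsto (fun N => Haar.coef hp hpq m (∑ n ∈ Finset.range N, a n • Haar.hv 𝕜 p n))
        atTop (𝓝 (a m)) := by
      apply tendsto_const_nhds.congr'
      filter_upwards [eventually_gt_atTop m] with N hN
      rw [Haar.coef_sum_hv, if_pos (Finset.mem_range.2 hN)]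
    exact tendsto_nhds_unique h2 h1
  refine ⟨Haar.hv 𝕜 p, ?_, ?_, ?_⟩
  · intro n
    refine (MemLp.coeFn_toLp (Haar.memLp_hf p n _)).trans (Eventually.of_forall fun x => ?_)
    simp only [haar_eq]
    rfl
  · intro f
    refine ⟨fun n => Haar.coef hp hpq n f, (hsys.sum f).tendsto_sum_nat, ?_⟩
    intro a ha
    funext m
    exact huniq f a ha m
  · obtain ⟨N, ⟨c₁, c₂, h1, h2, h3⟩, h4⟩ := Greedy.exists_greedy_norm hsys
    refine ⟨N, ⟨c₁, c₂, h1, h2, h3⟩, ?_⟩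
    intro f a ha A hA B b hB
    have he : a = fun n => Haar.coef hp hpq n f := funext (huniq f a ha)
    subst he
    exact h4 f A hA B hB b

/-- For every `1 < p < ∞`, over the real and over the complex scalars, there is a norm on
`L_p[0,1]`, equivalent to the usual one, for which the Haar system is `1`-greedy. -/
theorem result (𝕜 : Type) [RCLike 𝕜] (p : ℝ) (hp : 1 < p) [Fact (1 ≤ ENNReal.ofReal p)] :
    ∃ h : ℕ → Lp 𝕜 (ENNReal.ofReal p) (volume.restrict (Set.Icc (0 : ℝ) 1)),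
      (∀ n, h n =ᵐ[volume.restrict (Set.Icc (0 : ℝ) 1)] fun x => ((haar p n x : ℝ) : 𝕜)) ∧
      (∀ f, ∃! a : ℕ → 𝕜, IsExpansion h f a) ∧
      ∃ N : Seminorm 𝕜 (Lp 𝕜 (ENNReal.ofReal p) (volume.restrict (Set.Icc (0 : ℝ) 1))),
        (∃ c C : ℝ, 0 < c ∧ 0 < C ∧ ∀ f, c * ‖f‖ ≤ N f ∧ N f ≤ C * ‖f‖) ∧
        IsOneGreedy h N :=
  main 𝕜 p hp _ (Measure.restrict_congr_set Ico_ae_eq_Icc).symm

end Pool.Agent.Results.MP_3d1733_an.HaarOneGreedy
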